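import Pool.Agent.Hx18.DF.Assemble

/-!
# Decompleting the Frobenius of a complete local ring in characteristic `p`

For every Noetherian complete local ring `A` of characteristic `p` there is a coefficient field
`k` of `A` such that, for `K` the perfect closure of `k` and `A' = K ⊗[k] A`, there is a finite
`A'`-algebra `A''` for which the map from the completion of `A'` to the completion of `A''` is
isomorphic to the Frobenius of the completion of `A'`.
-/

set_option autoImplicit false
set_option maxHeartbeats 1000000
set_option synthInstance.maxHeartbeats 200000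

namespace Pool.Agent.Results.MP_8ea7ca_ag.DecompletedFrobenius

universe u v

open IsLocalRing
open scoped TensorProduct
open Pool.Agent.Hx18.DF

/-- A coefficient field of a local ring `A`: a subring which maps bijectively (hence
isomorphically) onto the residue field; such a subring is a field. -/
def IsCoefficientField (A : Type u) [CommRing A] [IsLocalRing A] (k : Subring A) : Prop :=
  Function.Bijective fun x : k => residue A (x : A)

/-- For an `R`-algebra `S` and an ideal `I` of `R`, the ring map from the `I`-adic completion of `R`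
to the completion of `S` at the ideal generated by `I`; at the `n`-th level it is the map
`R ⧸ I ^ n → S ⧸ (I S) ^ n` induced by `R → S`. -/
noncomputable def completionMap {R : Type u} [CommRing R] (I : Ideal R) (S : Type v) [CommRing S]
    [Algebra R S] : AdicCompletion I R →+* AdicCompletion (I.map (algebraMap R S)) S :=
  complMap I (I.map (algebraMap R S)) (algebraMap R S) le_rfl

/-- The defining property of `completionMap` on the class of an element at each level. -/
lemma evalₐ_completionMap {R : Type u} [CommRing R] (I : Ideal R) (S : Type v) [CommRing S]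
    [Algebra R S] (n : ℕ) (x : AdicCompletion I R) (r : R)
    (hr : AdicCompletion.evalₐ I n x = Ideal.Quotient.mk (I ^ n) r) :
    AdicCompletion.evalₐ (I.map (algebraMap R S)) n (completionMap I S x) =
      Ideal.Quotient.mk _ (algebraMap R S r) :=
  evalₐ_complMap I _ (algebraMap R S) le_rfl n x r hr

/-- The local ring `B` has a decompleted Frobenius: there are a finite `B`-algebra `C` and a ring
isomorphism `φ` from the completion of `C` at the ideal generated by the maximal ideal of `B` onto
the completion of `B`, such that the composite of the map from the completion of `B` to that of `C`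
with `φ` is `x ↦ x ^ p`. -/
def HasDecompletedFrobenius (p : ℕ) (B : Type u) [CommRing B] [IsLocalRing B] : Prop :=
  ∃ (C : Type u) (_ : CommRing C) (_ : Algebra B C), Module.Finite B C ∧
    ∃ φ : AdicCompletion ((maximalIdeal B).map (algebraMap B C)) C ≃+*
        AdicCompletion (maximalIdeal B) B,
      ∀ x : AdicCompletion (maximalIdeal B) B, φ (completionMap (maximalIdeal B) C x) = x ^ p

/-- A coefficient field has a perfect closure in the sense used in `result`, so that the statement
there is not vacuous. -/
theorem exists_perfectClosure (p : ℕ) [Fact p.Prime] (A : Type u) [CommRing A]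
    [Algebra (ZMod p) A] [IsLocalRing A] (k : Subring A) (hk : IsCoefficientField A k) :
    ∃ (K : Type u) (_ : Field K) (_ : Algebra k K) (_ : CharP K p) (_ : PerfectRing K p),
      IsPerfectClosure (algebraMap k K) p := by
  have hcharκ : CharP (ResidueField A) p :=
    charP_of_injective_algebraMap (algebraMap (ZMod p) (ResidueField A)).injective p
  let g : k →+* ResidueField A := (residue A).comp k.subtype
  have hg : Function.Bijective g := hk
  refine ⟨PerfectClosure (ResidueField A) p, inferInstance,
    ((PerfectClosure.of (ResidueField A) p).comp g).toAlgebra, inferInstance, inferInstance, ?_⟩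
  have h1 : IsPRadical g p :=
    { pow_mem' := fun x => by
        obtain ⟨y, hy⟩ := hg.2 x
        exact ⟨0, y, by rw [hy, pow_zero, pow_one]⟩
      ker_le' := by
        rw [(RingHom.injective_iff_ker_eq_bot g).1 hg.1]
        exact bot_le }
  exact IsPRadical.trans g (PerfectClosure.of (ResidueField A) p) p

/-- Every Noetherian complete local ring `A` over the field with `p` elements has a coefficient
field `k` such that, with `K` the perfect closure of `k`, the ring `K ⊗[k] A` admits a finite
algebra whose completion is isomorphic to the Frobenius of the completion of `K ⊗[k] A`. -/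
theorem result (p : ℕ) [Fact p.Prime] (A : Type u) [CommRing A] [Algebra (ZMod p) A]
    [IsNoetherianRing A] [IsLocalRing A] [IsAdicComplete (maximalIdeal A) A] :
    ∃ k : Subring A, IsCoefficientField A k ∧
      ∀ (K : Type u) [Field K] [Algebra k K] [CharP K p] [PerfectRing K p]
        [IsPerfectClosure (algebraMap k K) p],
        ∃ _ : IsLocalRing (K ⊗[k] A), HasDecompletedFrobenius p (K ⊗[k] A) := by
  classical
  obtain ⟨m, n, π, f, κ₁, G, hπ, hres, hspan, hker, hfmem, hpow, hGκ, hG⟩ :=
    exists_presentation p (A := A)
  have hp : p.Prime := Fact.out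
  have hcharA : CharP A p := charP_of_injective_algebraMap (algebraMap (ZMod p) A).injective p
  have hcharκ : CharP (ResidueField A) p :=
    charP_of_injective_algebraMap (algebraMap (ZMod p) (ResidueField A)).injective p
  let σ : ResidueField A →+* A := π.comp MvPowerSeries.C
  have hσ : ∀ c, residue A (σ c) = c := hres
  let k : Subring A := σ.range
  let e : ResidueField A ≃+* k := RingEquiv.ofBijective σ.rangeRestrict
    ⟨σ.rangeRestrict.injective, σ.rangeRestrict_surjective⟩
  have he : ∀ c, ((e c : k) : A) = σ c := fun c => rfl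
  have he' : ∀ x : k, σ (e.symm x) = (x : A) := fun x => by
    rw [← he, e.apply_symm_apply]
  refine ⟨k, ⟨?_, ?_⟩, ?_⟩
  · intro x y hxy
    have h1 : e.symm x = e.symm y := by
      have h2 : residue A (x : A) = residue A (y : A) := hxy
      rw [← he' x, ← he' y, hσ, hσ] at h2
      exact h2
    exact e.symm.injective h1
  · intro c
    exact ⟨e c, hσ c⟩
  intro K _ _ _ _ _
  have hchark : CharP k p := RingHom.charP k.subtype Subtype.val_injective p
  let i1 : Algebra κ₁ k := ((e : ResidueField A →+* k).comp κ₁.subtype).toAlgebra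
  let i2 : Algebra κ₁ K := ((algebraMap k K).comp (algebraMap κ₁ k)).toAlgebra
  let i3 : Algebra κ₁ A := ((algebraMap k A).comp (algebraMap κ₁ k)).toAlgebra
  have t1 : IsScalarTower κ₁ k K := IsScalarTower.of_algebraMap_eq fun _ => rfl
  have t2 : IsScalarTower κ₁ k A := IsScalarTower.of_algebraMap_eq fun _ => rfl
  have hι : ∀ c : κ₁, algebraMap κ₁ k c = e (c : ResidueField A) := fun c => rfl
  let E : MvPowerSeries (Fin n) k →+* MvPowerSeries (Fin n) (ResidueField A) :=
    MvPowerSeries.map (e.symm : k →+* ResidueField A)
  let E' : MvPowerSeries (Fin n) (ResidueField A) →+* MvPowerSeries (Fin n) k :=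
    MvPowerSeries.map (e : ResidueField A →+* k)
  have hEE' : ∀ r, E (E' r) = r := by
    intro r
    ext μ
    change e.symm (e (MvPowerSeries.coeff μ r)) = _
    rw [e.symm_apply_apply]
  have hE'E : ∀ r, E' (E r) = r := by
    intro r
    ext μ
    change ((e (e.symm (MvPowerSeries.coeff μ r)) : k) : A) = _
    rw [e.apply_symm_apply]
  have hEbij : Function.Bijective E :=
    ⟨fun a b hab => by rw [← hE'E a, hab, hE'E], fun b => ⟨E' b, hEE' b⟩⟩
  let π' : MvPowerSeries (Fin n) k →+* A := π.comp E
  have hπ' : Function.Surjective π' := hπ.comp hEbij.2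
  have hπC' : ∀ c, π' (MvPowerSeries.C c) = algebraMap k A c := by
    intro c
    change π (MvPowerSeries.map _ (MvPowerSeries.C c)) = _
    rw [MvPowerSeries.map_C]
    exact he' c
  have hπX' : ∀ i, π' (MvPowerSeries.X i) = π (MvPowerSeries.X i) := by
    intro i
    change π (MvPowerSeries.map _ (MvPowerSeries.X i)) = _
    rw [MvPowerSeries.map_X]
  let φ₀ : k →+* κ₁ := ((frobenius (ResidueField A) p).codRestrict κ₁ hpow).comp
    (e.symm : k →+* ResidueField A)
  have hφ₀' : ∀ x : k, ((φ₀ x : κ₁) : ResidueField A) = (e.symm x) ^ p := fun x => rfl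
  have hφ₀ : ∀ x : k, algebraMap κ₁ k (φ₀ x) = x ^ p := by
    intro x
    rw [hι, hφ₀', map_pow, e.apply_symm_apply]
  choose f₁ hf₁ using hfmem
  have hf₁' : ∀ j, MvPowerSeries.map (algebraMap κ₁ k) (f₁ j) = E' (f j) := by
    intro j
    rw [← hf₁ j]
    change _ = MvPowerSeries.map _ (MvPowerSeries.map _ _)
    rw [← RingHom.comp_apply, ← MvPowerSeries.map_comp]
    rfl
  have hker' : RingHom.ker π' =
      Ideal.span (Set.range fun j => MvPowerSeries.map (algebraMap κ₁ k) (f₁ j)) := by
    have h1 : RingHom.ker π' = (Ideal.span (Set.range f)).comap E := by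
      rw [← hker]
      rfl
    have h2 : (Ideal.span (Set.range fun j => MvPowerSeries.map (algebraMap κ₁ k) (f₁ j))).map E =
        Ideal.span (Set.range f) := by
      rw [Ideal.map_span, ← Set.range_comp]
      congr 2
      funext j
      rw [Function.comp_apply, hf₁', hEE']
    rw [h1, ← h2, Ideal.comap_map_of_bijective _ hEbij]
  have hspan' : Ideal.span (Set.range fun i => π' (MvPowerSeries.X i)) = maximalIdeal A := by
    rw [← hspan]
    congr 2
    funext i
    exact hπX' i
  have hrad : ∀ c : K, ∃ (r : ℕ) (y : k), algebraMap k K y = c ^ p ^ r := fun c =>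
    IsPRadical.pow_mem (algebraMap k K) p c
  have hkbij : Function.Bijective fun c : k => residue A (algebraMap k A c) := by
    refine ⟨fun x y hxy => ?_, fun c => ⟨e c, hσ c⟩⟩
    have h2 : residue A (x : A) = residue A (y : A) := hxy
    rw [← he' x, ← he' y, hσ, hσ] at h2
    exact e.symm.injective h2
  obtain ⟨hlr, hchar', hmax⟩ := isLocalRing_tensor (K := K) p hkbij hrad
    (fun i => π' (MvPowerSeries.X i)) hspan'
  have hK : ∀ c : K, ∃ d : K, d ^ p = c := fun c => surjective_frobenius K p c
  let G₁ : Finset κ₁ := G.attach.image fun g => ⟨g.1, hGκ g.1 g.2⟩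
  have hG₁ : ∀ c : κ₁, ∃ h : κ₁ → k, c = ∑ g ∈ G₁, g * φ₀ (h g) := by
    intro c
    obtain ⟨h, hh⟩ := hG c.1 c.2
    refine ⟨fun g => e (h g), ?_⟩
    have hinj : Set.InjOn (fun g : {x // x ∈ G} => (⟨g.1, hGκ g.1 g.2⟩ : κ₁)) G.attach := by
      intro a _ b _ hab
      exact Subtype.ext (congrArg (fun z : κ₁ => (z : ResidueField A)) hab)
    rw [Finset.sum_image hinj]
    apply Subtype.ext
    rw [hh, ← Finset.sum_attach]
    push_cast
    refine Finset.sum_congr rfl fun g _ => ?_
    congr 1
    rw [hφ₀', e.symm_apply_apply]
  obtain ⟨hle, hbij⟩ := compar_bijective (K := K) p π' hπC' hπ' φ₀ hφ₀ f₁ hker'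
    (maximalIdeal (K ⊗[k] A)) hmax
  refine ⟨hlr, K ⊗[κ₁] (subA (k₁ := κ₁) π' hπC'), inferInstance,
    (decFrob (K := K) p π' hπC' hπ' φ₀ hφ₀).toAlgebra, ?_, ?_⟩
  · exact decFrob_finite (K := K) p π' hπC' hπ' φ₀ hφ₀ hK G₁ hG₁
  · refine ⟨RingEquiv.ofBijective _ hbij, ?_⟩
    intro x
    obtain ⟨a, -, hax⟩ := exists_seq (maximalIdeal (K ⊗[k] A)) x
    apply AdicCompletion.ext_evalₐ
    intro r
    rw [map_pow, hax r, ← map_pow, ← compar_decFrob (k₁ := κ₁) p π' hπC' hπ' φ₀ hφ₀ (a r)]
    refine evalₐ_complMap _ _ _ hle r _ _ ?_
    exact evalₐ_complMap _ _ _ _ r x (a r) (hax r)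

end Pool.Agent.Results.MP_8ea7ca_ag.DecompletedFrobenius
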